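import Mathlib
import Pool.Graph.R_pool_sql_team_22c7b01f.H22.Cond2

set_option autoImplicit false
open MeasureTheory ProbabilityTheory

namespace Pool.Agent.Results.MP_7b591b_pr.AllCentres
open Pool.Agent.H22.Cond Set

/-- The operator norm of a matrix for the Euclidean norm. -/
noncomputable def opn {n : ℕ} (M : Matrix (Fin n) (Fin n) ℝ) : ℝ :=
  ‖Matrix.toEuclideanCLM (𝕜 := ℝ) M‖

/-- `M` is singular or its condition number is at least `x`. -/
def BadCond {n : ℕ} (x : ℝ) (M : Matrix (Fin n) (Fin n) ℝ) : Prop :=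
  M.det = 0 ∨ x ≤ opn M * opn M⁻¹

/-- The law of an `n × n` matrix with independent standard Gaussian entries. -/
noncomputable def gaussMat (n : ℕ) : Measure (Fin n → Fin n → ℝ) :=
  Measure.pi (fun _ : Fin n => Measure.pi (fun _ : Fin n => gaussianReal 0 1))

theorem base (n : ℕ) (hn : 1 ≤ n) (A : Matrix (Fin n) (Fin n) ℝ)
    (hA : ‖Matrix.toEuclideanCLM (𝕜 := ℝ) A‖ ≤ Real.sqrt n) (σ : ℝ) (hσ : 0 < σ) (hσ' : σ ≤ 1)
    (x : ℝ) (hx : 0 < x) :
    (Measure.pi (fun _ : Fin n =>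
        Measure.pi (fun _ : Fin n => gaussianReal 0 1)))
      {G : Fin n → Fin n → ℝ |
        (A + σ • Matrix.of G).det = 0 ∨
        x ≤ ‖Matrix.toEuclideanCLM (𝕜 := ℝ) (A + σ • Matrix.of G)‖ *
            ‖Matrix.toEuclideanCLM (𝕜 := ℝ) (A + σ • Matrix.of G)⁻¹‖}
      ≤ ENNReal.ofReal (500000 * n / (x * σ)) := by
  have h0 := F_meas A σ (x / 24)
  let S := {G : Fin n → Fin n → ℝ | 2⁻¹ ≤ γ n (Prod.mk G ⁻¹' F A σ (x / 24))}
  have h1 := meas_ge_le_lintegral_div (μ := Γ n) (measurable_measure_prodMk_left (ν := γ n) h0).aemeasurable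
    (ε := 2⁻¹) (by simp) (by simp)
  refine (measure_mono_ae (t := S) ?_).trans (h1.trans ?_)
  · filter_upwards [det_ne A hσ] with G h2 h3 using step1 hx h2 (h3.resolve_left h2)
  rw [← Measure.prod_apply h0, Measure.prod_apply_symm h0]
  refine ENNReal.div_le_of_le_mul ((lintegral_mono (step2 hn hA hσ hσ' (by positivity))).trans ?_)
  rw [lintegral_const_mul _ nv_cont.measurable.ennreal_ofReal]
  refine (mul_le_mul_right (E_nv hn) _).trans ?_
  rw [← ENNReal.ofReal_ofNat, ← ENNReal.ofReal_ofNat 2, ← ENNReal.ofReal_inv_of_pos two_pos,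
    ← ENNReal.ofReal_mul (by positivity), ← ENNReal.ofReal_mul (by positivity),
    ← ENNReal.ofReal_mul (by positivity), ← ENNReal.ofReal_mul (by positivity)]
  refine ENNReal.ofReal_le_ofReal ?_
  have := Real.mul_self_sqrt (n.cast_nonneg (α := ℝ))
  field_simp
  nlinarith [n.cast_nonneg (α := ℝ)]

theorem opn_smul {n : ℕ} (c : ℝ) (M : Matrix (Fin n) (Fin n) ℝ) : opn (c • M) = |c| * opn M := by
  unfold opn
  rw [map_smul, norm_smul, Real.norm_eq_abs]

theorem bad_smul {n : ℕ} {c : ℝ} (hc : 0 < c) (x : ℝ) (M : Matrix (Fin n) (Fin n) ℝ) :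
    BadCond x (c • M) ↔ BadCond x M := by
  unfold BadCond
  by_cases h : M.det = 0
  · have : (c • M).det = 0 := by rw [Matrix.det_smul, h, mul_zero]
    simp [h, this]
  · have h1 : (c • M).det ≠ 0 := by
      rw [Matrix.det_smul]
      exact mul_ne_zero (pow_ne_zero _ hc.ne') h
    have h2 : (c • M)⁻¹ = c⁻¹ • M⁻¹ := by
      refine Matrix.inv_eq_left_inv ?_
      rw [Matrix.smul_mul, Matrix.mul_smul, smul_smul, inv_mul_cancel₀ hc.ne', one_smul]
      exact Matrix.nonsing_inv_mul M (isUnit_iff_ne_zero.2 h)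
    have h3 : opn (c • M) * opn (c • M)⁻¹ = opn M * opn M⁻¹ := by
      rw [h2, opn_smul, opn_smul, abs_of_pos hc, abs_of_pos (inv_pos.2 hc)]
      field_simp
    simp only [h, h1, h3, false_or]

/-- Smoothed tail bound for the condition number about an arbitrary centre and for an arbitrary
noise level; the stated question is the case `‖Ā‖ ≤ √n`, `σ ≤ 1`. -/
theorem result :
    ∃ C : ℝ, 0 < C ∧ ∀ n : ℕ, 1 ≤ n → ∀ (A : Matrix (Fin n) (Fin n) ℝ) (σ x : ℝ), 0 < σ → 0 < x →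
      gaussMat n {G | BadCond x (A + σ • Matrix.of G)} ≤
        ENNReal.ofReal (C * Real.sqrt n * max (opn A / σ) (Real.sqrt n) / x) := by
  refine ⟨500000, by norm_num, fun n hn A σ x hσ hx => ?_⟩
  have hn0 : (0 : ℝ) < n := by exact_mod_cast hn
  have hsn : 0 < Real.sqrt n := Real.sqrt_pos.2 hn0
  set s := max (opn A / Real.sqrt n) σ with hs
  have hs0 : 0 < s := lt_max_of_lt_right hσ
  have h1 : ‖Matrix.toEuclideanCLM (𝕜 := ℝ) (s⁻¹ • A)‖ ≤ Real.sqrt n := by
    have e : ‖Matrix.toEuclideanCLM (𝕜 := ℝ) (s⁻¹ • A)‖ = s⁻¹ * opn A := by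
      have := opn_smul s⁻¹ A
      rwa [abs_of_pos (inv_pos.2 hs0)] at this
    rw [e, inv_mul_le_iff₀ hs0]
    have := le_max_left (opn A / Real.sqrt n) σ
    rwa [div_le_iff₀ hsn] at this
  have h2 : σ / s ≤ 1 := (div_le_one hs0).2 (le_max_right _ _)
  have h3 := base n hn (s⁻¹ • A) h1 (σ / s) (by positivity) h2 x hx
  have e1 : ∀ G : Fin n → Fin n → ℝ, s⁻¹ • A + (σ / s) • Matrix.of G =
      s⁻¹ • (A + σ • Matrix.of G) := by
    intro G
    rw [smul_add, smul_smul, div_eq_inv_mul]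
  have e2 : {G : Fin n → Fin n → ℝ | BadCond x (A + σ • Matrix.of G)} =
      {G : Fin n → Fin n → ℝ |
        (s⁻¹ • A + (σ / s) • Matrix.of G).det = 0 ∨
        x ≤ ‖Matrix.toEuclideanCLM (𝕜 := ℝ) (s⁻¹ • A + (σ / s) • Matrix.of G)‖ *
            ‖Matrix.toEuclideanCLM (𝕜 := ℝ) (s⁻¹ • A + (σ / s) • Matrix.of G)⁻¹‖} := by
    ext G
    simp only [Set.mem_ofPred_eq, e1]
    exact (bad_smul (inv_pos.2 hs0) x (A + σ • Matrix.of G)).symm
  rw [gaussMat, e2]
  refine h3.trans (ENNReal.ofReal_le_ofReal (le_of_eq ?_))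
  have e3 : max (opn A / σ) (Real.sqrt n) * σ = s * Real.sqrt n := by
    rw [hs, max_mul_of_nonneg _ _ hσ.le, max_mul_of_nonneg _ _ hsn.le, div_mul_cancel₀ _ hσ.ne',
      div_mul_cancel₀ _ hsn.ne', mul_comm σ]
  have e4 : (n : ℝ) = Real.sqrt n * Real.sqrt n := (Real.mul_self_sqrt hn0.le).symm
  have e5 : max (opn A / σ) (Real.sqrt n) = s * Real.sqrt n / σ := by
    rw [← e3, mul_div_cancel_right₀ _ hσ.ne']
  rw [e5]
  nth_rewrite 1 [e4]
  field_simp

end Pool.Agent.Results.MP_7b591b_pr.AllCentres
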